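import Pool.Agent.helper94.EU.DefsY

/-!
# Project eu (MP_ad8ced_nt: almost all primes `p`): the interfaces between the blocks

`L = log x`.  `YH` (helper94/EU/DefsY.lean) is the hypothesis on the weight `β` (block Y proves it for `bMu`, `bCc`, part II uses it), `YB_stmt` is exported by block Y (helper36), `SMB_stmt` by part II (helper94/EU/SpecII.lean),
`PTI_stmt` by part I (helper52/EU/SpecI.lean), `TYU_stmt` by part III (helper28); block T (helper6) cites `TYU_stmt`.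
-/

set_option autoImplicit false

open Finset

noncomputable section

namespace Pool.Agent.EU

open Pool.Agent.FI Pool.Agent.FJ

/-- all prime factors of `m` are `> Z` -/
def RgN (Z m : ℕ) : Prop := ∀ p : ℕ, p.Prime → p ∣ m → Z < p

open scoped Classical in
/-- the Möbius function on the rough numbers above `N₁` -/
def bMu (Z N₁ m : ℕ) : ℝ := if N₁ < m ∧ RgN Z m then (ArithmeticFunction.moebius m : ℝ) else 0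

open scoped Classical in
/-- the short coefficient of Vaughan's identity on the rough numbers above `N₁` -/
def bCc (Z U V N₁ m : ℕ) : ℝ := if N₁ < m ∧ RgN Z m then cc U V m else 0

/-- **YB** (block Y, helper36). -/
def YB_stmt : Prop := ∀ η δ : ℝ, 0 < η → 0 < δ → ∀ E : ℕ, ∃ C₁ : ℕ, ∀ C₀ : ℕ, C₁ ≤ C₀ → ∃ x₀ : ℕ, ∀ x : ℕ, x₀ ≤ x →
  ∀ A N Z : ℕ, (x : ℝ) ^ (2 / 3 + η) ≤ A → A ≤ x → (x : ℝ) ^ 2 * (x : ℝ) ^ η ≤ A ^ 2 * N → N ≤ x ^ 2 →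
  Real.log x ^ C₀ ≤ Z → (Z : ℝ) ≤ Real.log x ^ (2 * C₀) → ∀ N₁ : ℕ,
  YH x N A E ((x / A : ℝ) ^ 2 * (x : ℝ) ^ (η / 4)) (fun z => bMu Z N₁ (nn z)) ∧
  ∀ U V : ℕ, (U : ℝ) * (x : ℝ) ^ δ ≤ N → (V : ℝ) * (x : ℝ) ^ δ ≤ N →
    YH x N A E ((x / A : ℝ) ^ 2 * (x : ℝ) ^ (η / 4)) (fun z => bCc Z U V N₁ (nn z))

/-- **TYU** (part III, helper28; this is what block T cites).  `Y` = the roughness of `β`, `Z` = the roughness of `lm`. -/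
def TYU_stmt : Prop := ∀ η : ℝ, 0 < η → ∀ B : ℕ, ∃ C₁ : ℕ, ∀ C₀ : ℕ, C₁ ≤ C₀ → ∃ x₀ : ℕ, ∀ x : ℕ, x₀ ≤ x →
  ∀ Y : ℕ, Real.log x ^ C₀ ≤ Y → (Y : ℝ) ≤ Real.log x ^ (2 * C₀) → ∀ (Z : ℕ) (lm : ℤ → ℝ), Real.log x ^ C₁ ≤ Z → LamOK x Z (2 * Real.log x) lm →
  ∀ A : ℕ, (x : ℝ) ^ (2 / 3 + η) ≤ A → A ≤ x → ∀ β α : ℕ → ℝ,
  ((∃ N₁ : ℕ, β = bMu Y N₁) ∨ ∃ U V N₁ : ℕ, (U : ℝ) * (x : ℝ) ^ (η / 4) ≤ N₁ ∧ (V : ℝ) * (x : ℝ) ^ (η / 4) ≤ N₁ ∧ β = bCc Y U V N₁) →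
  (∀ m, |β m| ≤ 3 * Real.log x) → (∀ k, |α k| ≤ 3 * Real.log x * #k.divisors) →
  (∀ m k : ℕ, m * k ≤ 32 * x ^ 2 → β m * α k ≠ 0 → (x : ℝ) ^ (2 / 3 - η) ≤ m ∧ (m : ℝ) ≤ (x : ℝ) ^ (4 / 3 + 5 * η / 4)) →
  |∑ ζ ∈ PZ x A, lm ζ.2 * ∑ m ∈ (nn ζ).divisors, β m * α (nn ζ / m)| ≤ A * x / Real.log x ^ B

end Pool.Agent.EU
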