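import Pool.Agent.helper94.EU.SpecII

/-! # SMB: the small conductors (parameters), from OUT, COR, OMP, PHK -/

set_option autoImplicit false

open Finset

noncomputable section

namespace Pool.Agent.EU

open Pool.Agent.FI Pool.Agent.FJ

open scoped Classical in
private theorem SMB_ZD {N : ℕ} {z : ℤ × ℤ} (h : z ∈ ZD N) : z.1 % 2 = 1 ∧ IsCoprime z.1 z.2 := by
  unfold ZD at h
  rw [Finset.mem_filter] at h
  unfold FF at h
  rw [Finset.mem_filter] at h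
  exact ⟨h.1.2.1.1, h.2.2⟩

private theorem SMB_mono {x N A E E' : ℕ} {T : ℝ} {β : ℤ × ℤ → ℝ} (hL : 1 ≤ Real.log x) (hE : E ≤ E')
    (h : YH x N A E' T β) : YH x N A E T β := by
  intro q hq hqE c sg h₀ hh1 hh2 t ht
  have hx0 : (0 : ℝ) < x := by
    by_contra hc
    have h1 : (x : ℝ) = 0 := le_antisymm (not_lt.1 hc) (Nat.cast_nonneg x)
    rw [h1, Real.log_zero] at hL
    linarith
  have hm : Real.log x ^ E ≤ Real.log x ^ E' := pow_le_pow_right₀ hL hE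
  have hL0 : 0 < Real.log x := by linarith
  have h1 : (A : ℝ) / (x * Real.log x ^ E') ≤ h₀ := by
    refine le_trans ?_ hh1
    exact div_le_div_of_nonneg_left (by positivity) (by positivity) (mul_le_mul_of_nonneg_left hm hx0.le)
  refine (h q hq (hqE.trans hm) c sg h₀ h1 hh2 t ht).trans ?_
  exact div_le_div_of_nonneg_left (by positivity) (by positivity) hm

private theorem SMB_nn (om : ℕ → ℤ × ℤ → ℤ × ℤ → ℤ) (e r d : ℕ) (ψ : DirichletCharacter ℂ r) (z z' : ℤ × ℤ) :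
    ‖Omf om e r d ψ z z'‖ ≤ 1 := by
  unfold Omf
  split_ifs
  · rw [RCLike.norm_conj]
    exact DirichletCharacter.norm_le_one ψ _
  · rw [norm_zero]; exact zero_le_one

private theorem SMB_dvd (m e : ℕ) (t : ℤ) : m ∣ e * t.natAbs ↔ (m : ℤ) ∣ (e : ℤ) * t := by
  rw [Int.natCast_dvd, Int.natAbs_mul, Int.natAbs_natCast]

private theorem SMB_dl {q : ℤ} {z z' w w' : ℤ × ℤ} (h1 : q ∣ z.1 - w.1) (h2 : q ∣ z.2 - w.2) (h3 : q ∣ z'.1 - w'.1)
    (h4 : q ∣ z'.2 - w'.2) : q ∣ dl z z' - dl w w' := by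
  unfold dl
  have e : z.2 * z'.1 - z'.2 * z.1 - (w.2 * w'.1 - w'.2 * w.1)
      = (z.2 - w.2) * z'.1 + w.2 * (z'.1 - w'.1) - ((z'.2 - w'.2) * z.1 + w'.2 * (z.1 - w.1)) := by ring
  rw [e]
  exact dvd_sub (dvd_add (Dvd.dvd.mul_right h2 _) (Dvd.dvd.mul_left h3 _))
    (dvd_add (Dvd.dvd.mul_right h4 _) (Dvd.dvd.mul_left h1 _))

private theorem SMB_cond {q m e : ℕ} {s t : ℤ} (hmq : m ∣ q) (h : (q : ℤ) ∣ s - t) :
    (m ∣ e * s.natAbs ↔ m ∣ e * t.natAbs) := by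
  rw [SMB_dvd, SMB_dvd]
  have h1 : (m : ℤ) ∣ (e : ℤ) * s - e * t := by
    rw [← mul_sub]
    exact Dvd.dvd.mul_left ((Int.natCast_dvd_natCast.2 hmq).trans h) _
  constructor
  · intro h2
    have := dvd_sub h2 h1
    rwa [sub_sub_cancel] at this
  · intro h2
    have := dvd_add h1 h2
    rwa [sub_add_cancel] at this

/-- `Omf` is periodic modulo `r d` -/
private theorem SMB_per (hOMP : OMP_stmt) {om : ℕ → ℤ × ℤ → ℤ × ℤ → ℤ} (hom : OmOK om) {N e r d : ℕ} (he : e = 1 ∨ e = 2)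
    (ψ : DirichletCharacter ℂ r) : ∀ z ∈ ZD N, ∀ z' ∈ ZD N, ∀ w ∈ ZD N, ∀ w' ∈ ZD N, dl z z' ≠ 0 → dl w w' ≠ 0 →
      ((r * d : ℕ) : ℤ) ∣ z.1 - w.1 → ((r * d : ℕ) : ℤ) ∣ z.2 - w.2 → ((r * d : ℕ) : ℤ) ∣ z'.1 - w'.1 → ((r * d : ℕ) : ℤ) ∣ z'.2 - w'.2 →
      Omf om e r d ψ z z' = Omf om e r d ψ w w' := by
  intro z hz z' hz' w hw w' hw' h1 h2 c1 c2 c3 c4
  have hd := SMB_dl c1 c2 c3 c4
  have k1 := SMB_cond (e := e) (dvd_mul_right r d) hd
  have k2 := SMB_cond (e := e) (dvd_mul_left d r) hd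
  unfold Omf
  by_cases hc : r ∣ e * (dl z z').natAbs ∧ d ∣ e * (dl z z').natAbs
  · rw [if_pos hc, if_pos ⟨k1.1 hc.1, k2.1 hc.2⟩]
    have hr : ((r : ℕ) : ℤ) ∣ ((r * d : ℕ) : ℤ) := Int.natCast_dvd_natCast.2 (dvd_mul_right r d)
    have ho := hOMP om hom e he r z z' w w' (SMB_ZD hz).1 (SMB_ZD hz').1 (SMB_ZD hw).1 (SMB_ZD hw').1
      (SMB_ZD hz).2 (SMB_ZD hz').2 (SMB_ZD hw).2 (SMB_ZD hw').2 h1 h2 ((SMB_dvd _ _ _).1 hc.1) ((SMB_dvd _ _ _).1 (k1.1 hc.1))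
      (hr.trans c1) (hr.trans c2) (hr.trans c3) (hr.trans c4)
    have hz : (om e z z' : ZMod r) = (om e w w' : ZMod r) := by
      rw [← sub_eq_zero, ← Int.cast_sub, ZMod.intCast_zmod_eq_zero_iff_dvd]
      exact ho
    rw [hz]
  · rw [if_neg hc, if_neg (fun h => hc ⟨k1.2 h.1, k2.2 h.2⟩)]

private theorem SMB_large (b x₁ : ℕ) (M : ℝ) :
    ∃ x₀ : ℕ, ∀ x : ℕ, x₀ ≤ x → x₁ ≤ x ∧ 1 ≤ x ∧ M ≤ Real.log x ∧ Real.log x ^ b ≤ (x : ℝ) ^ (1 / 3 : ℝ) := by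
  have t1 : Filter.Tendsto (fun x : ℕ => Real.log x) Filter.atTop Filter.atTop :=
    Real.tendsto_log_atTop.comp tendsto_natCast_atTop_atTop
  have e1 := t1.eventually_ge_atTop (max M 1)
  have e2 := tendsto_natCast_atTop_atTop.eventually ((isLittleO_log_rpow_rpow_atTop (b : ℝ) (by norm_num : (0 : ℝ) < 1 / 3)).bound one_pos)
  have e3 := Filter.eventually_ge_atTop x₁
  have e5 := Filter.eventually_ge_atTop 1
  obtain ⟨x₀, hx₀⟩ := Filter.eventually_atTop.1 (e1.and (e2.and (e3.and e5)))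
  refine ⟨x₀, fun x hx => ?_⟩
  obtain ⟨h1, h2, h3, h5⟩ := hx₀ x hx
  have h6 : (1 : ℝ) ≤ Real.log x := (le_max_right _ _).trans h1
  refine ⟨h3, h5, (le_max_left _ _).trans h1, ?_⟩
  rw [one_mul, Real.norm_of_nonneg (by positivity), Real.norm_of_nonneg (Real.rpow_nonneg (Nat.cast_nonneg _) _), Real.rpow_natCast] at h2
  exact h2

open scoped Classical in
theorem SMB (hOUT : OUT_stmt) (hCOR : COR_stmt) (hOMP : OMP_stmt) (hPHK : PHK_stmt) : SMB_stmt := by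
  intro η hη B
  obtain ⟨C, hC, hO⟩ := hOUT
  obtain ⟨C', hC', hP⟩ := hPHK
  obtain ⟨E, x₁, hR⟩ := hCOR η hη (4 * B + 140)
  obtain ⟨x₀, hx₀⟩ := SMB_large (3 * B + 101) x₁ (max 2 (max (8 * C') (4608 * C)))
  refine ⟨3 * B + 101, max E (3 * B + 100), x₀, by omega, ?_⟩
  intro x Z N A lam β om hx hZ hlam hom hA1 hA hN1 hN2 hβ hY
  obtain ⟨hxx1, hx1, hLM, hpow⟩ := hx₀ x hx
  set L : ℝ := Real.log x with hLdef
  have hL2 : 2 ≤ L := (le_max_left _ _).trans hLM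
  have hL3 : 8 * C' ≤ L := (le_max_left _ _).trans ((le_max_right _ _).trans hLM)
  have hL4 : 4608 * C ≤ L := (le_max_right _ _).trans ((le_max_right _ _).trans hLM)
  have hL1 : 1 ≤ L := by linarith
  have hL0 : 0 < L := by linarith
  have hx0 : (0 : ℝ) < x := by exact_mod_cast hx1
  have hx1' : (1 : ℝ) ≤ x := by exact_mod_cast hx1
  have mono : ∀ a b : ℕ, a ≤ b → L ^ a ≤ L ^ b := fun a b h => pow_le_pow_right₀ hL1 h
  have ceil1 : ∀ a : ℕ, (⌈L ^ a⌉₊ : ℝ) ≤ L ^ (a + 1) := by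
    intro a
    have h1 := Nat.ceil_lt_add_one (show 0 ≤ L ^ a by positivity)
    have h2 : (1 : ℝ) ≤ L ^ a := one_le_pow₀ hL1
    have h3 : L ^ (a + 1) = L ^ a * L := pow_succ _ _
    rw [h3]
    calc (⌈L ^ a⌉₊ : ℝ) ≤ L ^ a + 1 := h1.le
      _ ≤ L ^ a * 2 := by linarith
      _ ≤ L ^ a * L := mul_le_mul_of_nonneg_left hL2 (by positivity)
  set R₀ : ℕ := ⌈L ^ (B + 30)⌉₊ with hR₀
  set K₁ : ℕ := ⌈L ^ (3 * B + 100)⌉₊ with hK₁
  have r1 : L ^ (B + 30) ≤ R₀ := Nat.le_ceil _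
  have r2 : (R₀ : ℝ) ≤ L ^ (B + 31) := ceil1 _
  have k1 : L ^ (3 * B + 100) ≤ K₁ := Nat.le_ceil _
  have k2 : (K₁ : ℝ) ≤ L ^ (3 * B + 101) := ceil1 _
  refine ⟨K₁, R₀, (mono _ _ (by omega)).trans k1, k2, r1, r2.trans (mono _ _ (by omega)), ?_⟩
  have hR1 : 1 ≤ R₀ := by
    have : (1 : ℝ) ≤ R₀ := (one_le_pow₀ hL1).trans r1
    exact_mod_cast this
  have hK1 : 1 ≤ K₁ := by
    have : (1 : ℝ) ≤ K₁ := (one_le_pow₀ hL1).trans k1
    exact_mod_cast this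
  have hK0 : (0 : ℝ) < K₁ := by exact_mod_cast hK1
  have hZ1' : (1 : ℝ) ≤ Z := (one_le_pow₀ hL1).trans hZ
  have hZ1 : 1 ≤ Z := by exact_mod_cast hZ1'
  have hxη : 1 ≤ (x : ℝ) ^ η := Real.one_le_rpow hx1' hη.le
  have hA43 : (x : ℝ) ^ (4 / 3 : ℝ) ≤ (A : ℝ) ^ 2 := by
    have h1 : (x : ℝ) ^ (2 / 3 : ℝ) ≤ A := (Real.rpow_le_rpow_of_exponent_le hx1' (by linarith)).trans hA1
    have h2 : (x : ℝ) ^ (4 / 3 : ℝ) = ((x : ℝ) ^ (2 / 3 : ℝ)) ^ 2 := by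
      rw [← Real.rpow_natCast, ← Real.rpow_mul hx0.le]; norm_num
    rw [h2]
    exact pow_le_pow_left₀ (Real.rpow_nonneg hx0.le _) h1 2
  have hAx : (A : ℝ) ≤ x := by exact_mod_cast hA
  have hA1' : (1 : ℝ) ≤ A := (Real.one_le_rpow hx1' (by linarith)).trans hA1
  have hAn : 1 ≤ A := by exact_mod_cast hA1'
  have hN0 : (0 : ℝ) < N := by
    by_contra hc
    have h1 : (N : ℝ) = 0 := le_antisymm (not_lt.1 hc) (Nat.cast_nonneg N)
    rw [h1, mul_zero] at hN1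
    have : 0 < (x : ℝ) ^ 2 * (x : ℝ) ^ η := by positivity
    linarith
  have hNn : 1 ≤ N := by exact_mod_cast hN0
  have hNA : x ≤ N * A := by
    have h1 : (x : ℝ) ^ 2 ≤ (A : ℝ) ^ 2 * N := (le_mul_of_one_le_right (by positivity) hxη).trans hN1
    have h2 : (x : ℝ) * x ≤ x * (N * A) := by
      calc (x : ℝ) * x = (x : ℝ) ^ 2 := by ring
        _ ≤ (A : ℝ) ^ 2 * N := h1
        _ = A * (N * A) := by ring
        _ ≤ x * (N * A) := mul_le_mul_of_nonneg_right hAx (by positivity)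
    have h3 : (x : ℝ) ≤ N * A := le_of_mul_le_mul_left h2 hx0
    exact_mod_cast h3
  have hNA2 : (N : ℝ) ≤ (A : ℝ) ^ 2 := (le_mul_of_one_le_right hN0.le hxη).trans hN2
  set NA : ℝ := (N : ℝ) * (A : ℝ) ^ 2 with hNAd
  have hNA0 : 0 < NA := by positivity
  -- the core
  have hYE : YH x N A E (((x : ℝ) / A) ^ 2 * (x : ℝ) ^ (η / 4)) β := SMB_mono hL1 (le_max_left _ _) hY
  have core : ∀ e : ℕ, e = 1 ∨ e = 2 → ∀ d ∈ Icc 1 K₁, ∀ r ∈ Icc 1 R₀, ∀ ψ : DirichletCharacter ℂ r,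
      ‖CR x N A K₁ β (Omf om e r d ψ) (fun l => (lam l : ℂ) * (starRingEnd ℂ) (ψ (l : ZMod r))) (fun l => (lam l : ℂ) * ψ (l : ZMod r))‖
        ≤ NA * L ^ 6 / K₁ := by
    intro e he d hd r hr ψ
    rw [Finset.mem_Icc] at hd hr
    have hlam1 : ∀ l, ‖(lam l : ℂ)‖ ≤ 2 * L := by
      intro l
      rw [Complex.norm_real]
      exact hlam.1 l
    refine hR x N A K₁ (r * d) β (Omf om e r d ψ) _ _ hxx1 hA1 hA hN1 (by exact_mod_cast hNA2) hK1 (k2.trans (mono _ _ (by omega))) ?_ ?_ hβ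
      (SMB_nn om e r d ψ) ?_ ?_ hYE (SMB_per hOMP hom he ψ)
    · exact Nat.mul_pos hr.1 hd.1
    · push_cast
      have a1 : (r : ℝ) ≤ L ^ (B + 31) := by
        have : (r : ℝ) ≤ R₀ := by exact_mod_cast hr.2
        exact this.trans r2
      have a2 : (d : ℝ) ≤ L ^ (3 * B + 101) := by
        have : (d : ℝ) ≤ K₁ := by exact_mod_cast hd.2
        exact this.trans k2
      calc (r : ℝ) * d ≤ L ^ (B + 31) * L ^ (3 * B + 101) := mul_le_mul a1 a2 (Nat.cast_nonneg _) (by positivity)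
        _ = L ^ ((B + 31) + (3 * B + 101)) := (pow_add _ _ _).symm
        _ ≤ L ^ (4 * B + 140) := mono _ _ (by omega)
    · intro l
      rw [norm_mul, RCLike.norm_conj]
      have h1 := DirichletCharacter.norm_le_one ψ (l : ZMod r)
      have h2 := hlam1 l
      have h3 := norm_nonneg (ψ (l : ZMod r))
      calc ‖(lam l : ℂ)‖ * ‖ψ (l : ZMod r)‖ ≤ 2 * L * 1 := mul_le_mul h2 h1 h3 (by positivity)
        _ = 2 * L := mul_one _
    · intro l
      rw [norm_mul]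
      have h1 := DirichletCharacter.norm_le_one ψ (l : ZMod r)
      have h2 := hlam1 l
      have h3 := norm_nonneg (ψ (l : ZMod r))
      calc ‖(lam l : ℂ)‖ * ‖ψ (l : ZMod r)‖ ≤ 2 * L * 1 := mul_le_mul h2 h1 h3 (by positivity)
        _ = 2 * L := mul_one _
  -- the number of the characters
  have nch : ∀ r ∈ Icc 1 R₀, (#{ψ : DirichletCharacter ℂ r | ψ.IsPrimitive} : ℝ) ≤ R₀ := by
    intro r hr
    rw [Finset.mem_Icc] at hr
    have : NeZero r := ⟨by omega⟩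
    have h1 : #{ψ : DirichletCharacter ℂ r | ψ.IsPrimitive} ≤ Fintype.card (DirichletCharacter ℂ r) := by
      rw [← Finset.card_univ]
      exact Finset.card_filter_le _ _
    have h2 : Fintype.card (DirichletCharacter ℂ r) = Nat.totient r := by
      rw [← Nat.card_eq_fintype_card, DirichletCharacter.card_eq_totient_of_hasEnoughRootsOfUnity ℂ r]
    rw [h2] at h1
    have h3 : #{ψ : DirichletCharacter ℂ r | ψ.IsPrimitive} ≤ R₀ := h1.trans ((Nat.totient_le r).trans hr.2)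
    exact_mod_cast h3
  have s1 : ∑ e ∈ ({1, 2} : Finset ℕ), ∑ d ∈ Icc 1 K₁, 1 / (Nat.totient d : ℝ) * ∑ r ∈ Icc 1 R₀,
      ∑ ψ : DirichletCharacter ℂ r with ψ.IsPrimitive,
        ‖CR x N A K₁ β (Omf om e r d ψ) (fun l => (lam l : ℂ) * (starRingEnd ℂ) (ψ (l : ZMod r))) (fun l => (lam l : ℂ) * ψ (l : ZMod r))‖
      ≤ 2 * (C' * (1 + Real.log K₁)) * ((R₀ : ℝ) ^ 2 * (NA * L ^ 6 / K₁)) := by
    have h1 : ∀ e ∈ ({1, 2} : Finset ℕ), ∑ d ∈ Icc 1 K₁, 1 / (Nat.totient d : ℝ) * ∑ r ∈ Icc 1 R₀,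
        ∑ ψ : DirichletCharacter ℂ r with ψ.IsPrimitive,
        ‖CR x N A K₁ β (Omf om e r d ψ) (fun l => (lam l : ℂ) * (starRingEnd ℂ) (ψ (l : ZMod r))) (fun l => (lam l : ℂ) * ψ (l : ZMod r))‖
        ≤ (C' * (1 + Real.log K₁)) * ((R₀ : ℝ) ^ 2 * (NA * L ^ 6 / K₁)) := by
      intro e he
      have he' : e = 1 ∨ e = 2 := by
        rw [Finset.mem_insert, Finset.mem_singleton] at he
        exact he
      have h2 : ∀ d ∈ Icc 1 K₁, ∑ r ∈ Icc 1 R₀, ∑ ψ : DirichletCharacter ℂ r with ψ.IsPrimitive,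
          ‖CR x N A K₁ β (Omf om e r d ψ) (fun l => (lam l : ℂ) * (starRingEnd ℂ) (ψ (l : ZMod r))) (fun l => (lam l : ℂ) * ψ (l : ZMod r))‖
          ≤ (R₀ : ℝ) ^ 2 * (NA * L ^ 6 / K₁) := by
        intro d hd
        have h3 : ∀ r ∈ Icc 1 R₀, ∑ ψ : DirichletCharacter ℂ r with ψ.IsPrimitive,
            ‖CR x N A K₁ β (Omf om e r d ψ) (fun l => (lam l : ℂ) * (starRingEnd ℂ) (ψ (l : ZMod r))) (fun l => (lam l : ℂ) * ψ (l : ZMod r))‖
            ≤ R₀ * (NA * L ^ 6 / K₁) := by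
          intro r hr
          refine (Finset.sum_le_card_nsmul _ _ _ fun ψ _ => core e he' d hd r hr ψ).trans ?_
          rw [nsmul_eq_mul]
          exact mul_le_mul_of_nonneg_right (nch r hr) (by positivity)
        refine (Finset.sum_le_card_nsmul _ _ _ h3).trans ?_
        rw [nsmul_eq_mul, Nat.card_Icc, Nat.add_sub_cancel]
        exact le_of_eq (by ring)
      calc ∑ d ∈ Icc 1 K₁, 1 / (Nat.totient d : ℝ) * ∑ r ∈ Icc 1 R₀,
          ∑ ψ : DirichletCharacter ℂ r with ψ.IsPrimitive,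
          ‖CR x N A K₁ β (Omf om e r d ψ) (fun l => (lam l : ℂ) * (starRingEnd ℂ) (ψ (l : ZMod r))) (fun l => (lam l : ℂ) * ψ (l : ZMod r))‖
          ≤ ∑ d ∈ Icc 1 K₁, 1 / (Nat.totient d : ℝ) * ((R₀ : ℝ) ^ 2 * (NA * L ^ 6 / K₁)) :=
            Finset.sum_le_sum fun d hd => mul_le_mul_of_nonneg_left (h2 d hd) (by positivity)
        _ = (∑ d ∈ Icc 1 K₁, 1 / (Nat.totient d : ℝ)) * ((R₀ : ℝ) ^ 2 * (NA * L ^ 6 / K₁)) := by rw [Finset.sum_mul]
        _ ≤ _ := mul_le_mul_of_nonneg_right (hP K₁ hK1) (by positivity)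
    refine (Finset.sum_le_card_nsmul _ _ _ h1).trans ?_
    have h5 : #({1, 2} : Finset ℕ) = 2 := rfl
    rw [nsmul_eq_mul, h5]
    push_cast
    exact le_of_eq (by ring)
  have hout := hO om hom x Z N A K₁ R₀ K₁ hx1 hZ1 hNn hAn hA hNA hK1 hR1 hK1 (2 * L) (3 * L) lam β hlam hβ
  refine hout.trans ((add_le_add_left s1 _).trans ?_)
  -- first part
  have hpow' : L ^ (3 * B + 101) ≤ x := by
    refine hpow.trans ?_
    have := Real.rpow_le_rpow_of_exponent_le hx1' (by norm_num : (1 / 3 : ℝ) ≤ 1)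
    rwa [Real.rpow_one] at this
  have hlogK : Real.log K₁ ≤ L := Real.log_le_log hK0 (k2.trans hpow')
  have hR2 : (R₀ : ℝ) ^ 2 ≤ L ^ (2 * B + 62) := by
    calc (R₀ : ℝ) ^ 2 ≤ (L ^ (B + 31)) ^ 2 := pow_le_pow_left₀ (Nat.cast_nonneg _) r2 2
      _ = L ^ ((B + 31) * 2) := (pow_mul _ _ _).symm
      _ = L ^ (2 * B + 62) := by congr 1; ring
  have hP0 : 0 < L ^ (3 * B + 100) := by positivity
  have p1 : 2 * (C' * (1 + Real.log K₁)) * ((R₀ : ℝ) ^ 2 * (NA * L ^ 6 / K₁)) ≤ 1 / 2 * (NA / L ^ B) := by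
    have h1 : NA * L ^ 6 / K₁ ≤ NA * L ^ 6 / L ^ (3 * B + 100) := div_le_div_of_nonneg_left (by positivity) hP0 k1
    have h2 : 2 * (C' * (1 + Real.log K₁)) ≤ 2 * (C' * (2 * L)) := by
      refine mul_le_mul_of_nonneg_left (mul_le_mul_of_nonneg_left (by linarith) hC'.le) (by norm_num)
    calc 2 * (C' * (1 + Real.log K₁)) * ((R₀ : ℝ) ^ 2 * (NA * L ^ 6 / K₁))
        ≤ 2 * (C' * (2 * L)) * (L ^ (2 * B + 62) * (NA * L ^ 6 / L ^ (3 * B + 100))) := by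
          refine mul_le_mul h2 (mul_le_mul hR2 h1 (by positivity) (by positivity)) (by positivity) (by positivity)
      _ = (4 * C' / L ^ 31) * (NA / L ^ B) := by
          have e1 : L ^ (3 * B + 100) = L ^ (2 * B + 62) * L ^ 6 * L * L ^ 31 * L ^ B := by
            rw [← pow_add, ← pow_succ, ← pow_add, ← pow_add]; congr 1; ring
          rw [e1]
          field_simp
          ring
      _ ≤ 1 / 2 * (NA / L ^ B) := by
          refine mul_le_mul_of_nonneg_right ?_ (by positivity)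
          rw [div_le_iff₀ (by positivity)]
          have : L ^ 1 ≤ L ^ 31 := mono _ _ (by norm_num)
          rw [pow_one] at this
          linarith
  -- second part
  have hx13 : (L : ℝ) ^ (3 * B + 100) ≤ (x : ℝ) ^ (1 / 3 : ℝ) := (mono _ _ (by omega)).trans hpow
  have q1 : NA / Z ≤ NA / L ^ (3 * B + 100) :=
    div_le_div_of_nonneg_left hNA0.le hP0 ((mono _ _ (le_max_right _ _)).trans hZ)
  have q2 : NA / K₁ ≤ NA / L ^ (3 * B + 100) := div_le_div_of_nonneg_left hNA0.le hP0 k1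
  have q3 : NA / x ≤ NA / L ^ (3 * B + 100) := div_le_div_of_nonneg_left hNA0.le hP0 ((mono _ _ (by omega)).trans hpow')
  have q4 : (x : ℝ) * N ≤ NA / L ^ (3 * B + 100) := by
    rw [le_div_iff₀ hP0]
    have h1 : (x : ℝ) * (x : ℝ) ^ (1 / 3 : ℝ) = (x : ℝ) ^ (4 / 3 : ℝ) := by
      have : (x : ℝ) * (x : ℝ) ^ (1 / 3 : ℝ) = (x : ℝ) ^ (1 : ℝ) * (x : ℝ) ^ (1 / 3 : ℝ) := by rw [Real.rpow_one]
      rw [this, ← Real.rpow_add hx0]; norm_num
    calc (x : ℝ) * N * L ^ (3 * B + 100) ≤ x * N * (x : ℝ) ^ (1 / 3 : ℝ) := mul_le_mul_of_nonneg_left hx13 (by positivity)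
      _ = N * (x : ℝ) ^ (4 / 3 : ℝ) := by rw [← h1]; ring
      _ ≤ N * (A : ℝ) ^ 2 := mul_le_mul_of_nonneg_left hA43 hN0.le
  have hlogX : 1 + Real.log (2 * N * A / x : ℕ) ≤ 4 * L := by
    have h1 : ((2 * N * A / x : ℕ) : ℝ) ≤ 2 * (x : ℝ) ^ 2 := by
      refine (Nat.cast_div_le).trans ?_
      rw [div_le_iff₀ hx0]
      push_cast
      have h2 : (N : ℝ) ≤ (x : ℝ) ^ 2 := hNA2.trans (pow_le_pow_left₀ (by positivity) hAx 2)
      calc 2 * (N : ℝ) * A = 2 * ((N : ℝ) * A) := by ring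
        _ ≤ 2 * ((x : ℝ) ^ 2 * x) := mul_le_mul_of_nonneg_left (mul_le_mul h2 hAx (by positivity) (by positivity)) (by norm_num)
        _ = 2 * (x : ℝ) ^ 2 * x := by ring
    have h0 : (0 : ℝ) < ((2 * N * A / x : ℕ) : ℝ) := by
      have : 0 < 2 * N * A / x := Nat.div_pos (hNA.trans (by rw [mul_assoc]; exact Nat.le_mul_of_pos_left _ (by norm_num))) (by omega)
      exact_mod_cast this
    have h3 := Real.log_le_log h0 h1
    rw [Real.log_mul (by norm_num) (by positivity), Real.log_pow] at h3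
    have h4 := Real.log_two_lt_d9
    push_cast at h3
    linarith
  have hlogX0 : 0 ≤ 1 + Real.log (2 * N * A / x : ℕ) := by
    have := Real.log_natCast_nonneg (2 * N * A / x)
    linarith
  have hlogX2 : (1 + Real.log (2 * N * A / x : ℕ)) ^ 2 ≤ 16 * L ^ 2 := by
    calc (1 + Real.log (2 * N * A / x : ℕ)) ^ 2 ≤ (4 * L) ^ 2 := pow_le_pow_left₀ hlogX0 hlogX 2
      _ = 16 * L ^ 2 := by ring
  have p2 : C * (3 * L) ^ 2 * (2 * L) ^ 2 * R₀ ^ 2 * (1 + Real.log (2 * N * A / x : ℕ)) ^ 2 * (NA / Z + NA / K₁ + NA / x + x * N)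
      ≤ 1 / 2 * (NA / L ^ B) := by
    calc C * (3 * L) ^ 2 * (2 * L) ^ 2 * R₀ ^ 2 * (1 + Real.log (2 * N * A / x : ℕ)) ^ 2 * (NA / Z + NA / K₁ + NA / x + x * N)
        ≤ C * (3 * L) ^ 2 * (2 * L) ^ 2 * L ^ (2 * B + 62) * (16 * L ^ 2) * (4 * (NA / L ^ (3 * B + 100))) := by
          refine mul_le_mul (mul_le_mul (mul_le_mul_of_nonneg_left hR2 (by positivity)) hlogX2 (by positivity) (by positivity)) (by linarith)
            (by positivity) (by positivity)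
      _ = (2304 * C / L ^ 32) * (NA / L ^ B) := by
          have e1 : L ^ (3 * B + 100) = L ^ (2 * B + 62) * L ^ 6 * L ^ 32 * L ^ B := by
            rw [← pow_add, ← pow_add, ← pow_add]; congr 1; ring
          rw [e1]
          field_simp
          ring
      _ ≤ 1 / 2 * (NA / L ^ B) := by
          refine mul_le_mul_of_nonneg_right ?_ (by positivity)
          rw [div_le_iff₀ (by positivity)]
          have : L ^ 1 ≤ L ^ 32 := mono _ _ (by norm_num)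
          rw [pow_one] at this
          linarith
  linarith

end Pool.Agent.EU
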