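import Pool.Agent.helper28.EU.Defs
import Pool.Agent.helper52.EU.SpecI
import Pool.Agent.helper94.EU.SpecII

/-!
# Project eu (MP_ad8ced_nt: almost all primes `p`), Spec III: from the bilinear form to the type II sum

Rows `eu:WFU`, `eu:T2U`, `eu:TYU` (statement `TYU_stmt` in helper28/EU/Defs.lean).
-/

set_option autoImplicit false

open Finset

noncomputable section

namespace Pool.Agent.EU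

open Pool.Agent.FI Pool.Agent.FJ

/-- **WFU** (short).  From LAT, PTI, SMB.  `WW ≤ ‖WW - SML‖ + ‖SML‖ ≤ 2 N A²/L^(B+1)`. -/
def WFU_stmt : Prop := ∀ η : ℝ, 0 < η → ∀ B : ℕ, ∃ E : ℕ, ∃ x₀ : ℕ, ∀ x : ℕ, x₀ ≤ x → ∀ (Z : ℕ) (lam : ℤ → ℝ), Real.log x ^ E ≤ Z →
  LamOK x Z (2 * Real.log x) lam →
  ∀ A N R : ℕ, (x : ℝ) ^ (2 / 3 + η) ≤ A → A ≤ x → (x : ℝ) ^ 2 * (x : ℝ) ^ η ≤ A ^ 2 * N → N * (x : ℝ) ^ η ≤ A ^ 2 →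
  1156 * x ^ 2 ≤ R ^ 2 * N → R ^ 2 * N ≤ 2000 * x ^ 2 →
  ∀ β : ℤ × ℤ → ℝ, (∀ z, |β z| ≤ 3 * Real.log x) → YH x N A E (((x : ℝ) / A) ^ 2 * (x : ℝ) ^ (η / 4)) β → WW N R A β lam ≤ N * A ^ 2 / Real.log x ^ B

/-- **T2U** (short).  From TDW, WFU.  Copy of T2N (Pool/Agent/helper55/FJ/T2N.lean). -/
def T2U_stmt : Prop := ∀ η : ℝ, 0 < η → ∀ B : ℕ, ∃ E : ℕ, ∃ x₀ : ℕ, ∀ x : ℕ, x₀ ≤ x → ∀ (Z : ℕ) (lam : ℤ → ℝ), Real.log x ^ E ≤ Z →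
  LamOK x Z (2 * Real.log x) lam →
  ∀ A N R : ℕ, (x : ℝ) ^ (2 / 3 + η) ≤ A → A ≤ x → (x : ℝ) ^ 2 * (x : ℝ) ^ η ≤ A ^ 2 * N → N * (x : ℝ) ^ η ≤ A ^ 2 →
  1156 * x ^ 2 ≤ R ^ 2 * N → R ^ 2 * N ≤ 2000 * x ^ 2 →
  ∀ (β : ℤ × ℤ → ℝ) (α : ℕ → ℝ), (∀ z, |β z| ≤ 3 * Real.log x) → YH x N A E (((x : ℝ) / A) ^ 2 * (x : ℝ) ^ (η / 4)) β → (∀ k, |α k| ≤ #k.divisors) →
  |∑ w ∈ Bx R with w.1 % 2 = 1, ∑ z ∈ ZD N, β z * α (nn w) * lam (lc z w) * ga A (ac z w)| ≤ A * x / Real.log x ^ B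

end Pool.Agent.EU
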