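import Pool.Agent.helper28.EU.SpecIII

/-! # T2U: Cauchy-Schwarz over w (port of T2N by helper55, adapted from T2M by helper30) -/

set_option autoImplicit false

open Finset

noncomputable section

namespace Pool.Agent.EU

open Finset Pool.Agent.FI Pool.Agent.FJ

open scoped Classical in
theorem T2U (hTDW : TDW_stmt) (hWFU : WFU_stmt) : T2U_stmt := by
  intro η hη B
  obtain ⟨C, hC0, hC⟩ := hTDW
  obtain ⟨E, x₁, hE⟩ := hWFU η hη (2 * B + 42)
  set K : ℝ := 2000 * C * 6 ^ 40 with hK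
  have hK0 : 0 < K := by positivity
  refine ⟨E, max x₁ ⌈Real.exp (K + 1)⌉₊, ?_⟩
  intro x hx Z lam hZ hlam A N R hA1 hA hN hNx hR1 hR2 β α hβ hY hα
  have hx1 : x₁ ≤ x := (le_max_left _ _).trans hx
  have hx2 : Real.exp (K + 1) ≤ x :=
    (Nat.le_ceil _).trans (by exact_mod_cast (le_max_right _ _).trans hx)
  have hx0 : (0 : ℝ) < x := (Real.exp_pos _).trans_le hx2
  have hxn : 0 < x := by exact_mod_cast hx0
  have hL : K + 1 ≤ Real.log x := (Real.le_log_iff_exp_le hx0).2 hx2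
  set L : ℝ := Real.log x with hLdef
  have hL1 : 1 ≤ L := by linarith
  have hLK : K ≤ L := by linarith
  have hL0 : 0 < L := by linarith
  have hW := hE x hx1 Z lam hZ hlam A N R hA1 hA hN hNx hR1 hR2 β hβ hY
  have hNpos : 0 < N := by
    rcases Nat.eq_zero_or_pos N with h | h
    · exfalso
      subst h
      have h9 : 0 < (x : ℝ) ^ 2 * (x : ℝ) ^ η := by positivity
      rw [Nat.cast_zero, mul_zero] at hN
      linarith
    · exact h
  have hN1 : (1 : ℝ) ≤ N := by exact_mod_cast hNpos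
  have hRpos : 1 ≤ R := by
    rcases Nat.eq_zero_or_pos R with h | h
    · subst h
      have : 0 < 1156 * x ^ 2 := by positivity
      omega
    · exact h
  have hR0 : (0 : ℝ) < R := by exact_mod_cast hRpos
  have hR2' : (R : ℝ) ^ 2 * N ≤ 2000 * (x : ℝ) ^ 2 := by exact_mod_cast hR2
  have hlogR : 1 + Real.log R ≤ 6 * L := by
    have h1 : (R : ℝ) ^ 2 ≤ 2000 * (x : ℝ) ^ 2 := by nlinarith [sq_nonneg (R : ℝ)]
    have h2 : (R : ℝ) ≤ 45 * x := by
      by_contra hc
      push Not at hc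
      nlinarith
    have h3 : Real.log R ≤ Real.log (45 * x) := Real.log_le_log hR0 h2
    rw [Real.log_mul (by norm_num) hx0.ne'] at h3
    have h4 : Real.log 45 ≤ 4 := by
      rw [Real.log_le_iff_le_exp (by norm_num)]
      have h5 := Real.add_one_le_exp (1 : ℝ)
      have h6 : (2.7 : ℝ) < Real.exp 1 := by
        have := Real.exp_one_gt_d9
        linarith
      have h7 : Real.exp 4 = Real.exp 1 ^ 4 := by
        rw [← Real.exp_nat_mul]; norm_num
      rw [h7]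
      have h8 : (2.7 : ℝ) ^ 4 ≤ Real.exp 1 ^ 4 := pow_le_pow_left₀ (by norm_num) h6.le 4
      norm_num at h8 ⊢
      linarith
    linarith
  have hlogR0 : 0 ≤ 1 + Real.log R := by
    have := Real.log_nonneg (show (1 : ℝ) ≤ R by exact_mod_cast hRpos)
    linarith
  have hT := hC R hRpos
  -- rewriting
  have h1 : ∑ w ∈ Bx R with w.1 % 2 = 1, ∑ z ∈ ZD N, β z * α (nn w) * lam (lc z w) * ga A (ac z w) =
      ∑ w ∈ Bx R with w.1 % 2 = 1, α (nn w) * ∑ z ∈ ZD N, β z * lam (lc z w) * ga A (ac z w) := by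
    apply Finset.sum_congr rfl
    intro w _
    rw [Finset.mul_sum]
    apply Finset.sum_congr rfl
    intro z _
    ring
  rw [h1]
  have h2 := Finset.sum_mul_sq_le_sq_mul_sq ((Bx R).filter fun w => w.1 % 2 = 1) (fun w => α (nn w))
    (fun w => ∑ z ∈ ZD N, β z * lam (lc z w) * ga A (ac z w))
  have h3 : ∑ w ∈ Bx R with w.1 % 2 = 1, α (nn w) ^ 2 ≤ C * R ^ 2 * (6 * L) ^ 40 := by
    refine le_trans ?_ (hT.trans ?_)
    · apply Finset.sum_le_sum
      intro w _
      rw [← sq_abs]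
      exact pow_le_pow_left₀ (abs_nonneg _) (hα _) 2
    · apply mul_le_mul_of_nonneg_left _ (by positivity)
      exact pow_le_pow_left₀ hlogR0 hlogR 40
  have h4 : (∑ w ∈ Bx R with w.1 % 2 = 1, α (nn w) * ∑ z ∈ ZD N, β z * lam (lc z w) * ga A (ac z w)) ^ 2 ≤
      ((A : ℝ) * x / L ^ B) ^ 2 := by
    refine h2.trans ?_
    have h5 : (∑ w ∈ Bx R with w.1 % 2 = 1, α (nn w) ^ 2) *
        (∑ w ∈ Bx R with w.1 % 2 = 1, (∑ z ∈ ZD N, β z * lam (lc z w) * ga A (ac z w)) ^ 2) ≤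
        (C * R ^ 2 * (6 * L) ^ 40) * ((N : ℝ) * A ^ 2 / L ^ (2 * B + 42)) := by
      apply mul_le_mul h3 hW (Finset.sum_nonneg fun _ _ => sq_nonneg _) (by positivity)
    refine h5.trans ?_
    have h6 : (C * R ^ 2 * (6 * L) ^ 40) * ((N : ℝ) * A ^ 2 / L ^ (2 * B + 42)) =
        (C * 6 ^ 40 / L ^ 2) * ((R ^ 2 * N) * (A ^ 2 / L ^ (2 * B))) := by
      rw [pow_add, mul_pow]
      field_simp
    rw [h6]
    have h7 : C * 6 ^ 40 / L ^ 2 ≤ 1 / 2000 := by
      rw [div_le_div_iff₀ (by positivity) (by norm_num)]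
      nlinarith
    have h8 : (R ^ 2 * N : ℝ) * (A ^ 2 / L ^ (2 * B)) ≤ (2000 * x ^ 2) * (A ^ 2 / L ^ (2 * B)) :=
      mul_le_mul_of_nonneg_right hR2' (by positivity)
    calc (C * 6 ^ 40 / L ^ 2) * ((R ^ 2 * N : ℝ) * (A ^ 2 / L ^ (2 * B)))
        ≤ (1 / 2000) * ((2000 * x ^ 2) * (A ^ 2 / L ^ (2 * B))) := by
          apply mul_le_mul h7 h8 (by positivity) (by norm_num)
      _ = ((A : ℝ) * x / L ^ B) ^ 2 := by
          rw [div_pow, show (L ^ B) ^ 2 = L ^ (2 * B) by rw [← pow_mul, mul_comm B 2]]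
          ring
  exact abs_le_of_sq_le_sq' h4 (by positivity) |> fun h => abs_le.2 h

end Pool.Agent.EU
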