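import Pool.Agent.helper6.EU.SpecT

/-! # TFI: the theorem for almost all primes, from TAL and PPW -/

set_option autoImplicit false

open Finset

noncomputable section

namespace Pool.Agent.EU

open Pool.Agent.FI Pool.Agent.FJ

open scoped Classical in
/-- the part of the proper prime powers -/
private def TFI_P (A : ℕ) (l : ℤ) : ℝ :=
  ∑ a ∈ Icc (1 : ℤ) A with (a % 2 = 1 ∧ ¬ (nn (a, l)).Prime), ArithmeticFunction.vonMangoldt (nn (a, l))

open scoped Classical in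
/-- the part of the primes -/
private def TFI_S (A : ℕ) (l : ℤ) : Finset ℤ := (Icc (1 : ℤ) A).filter (fun a => a % 2 = 1 ∧ (nn (a, l)).Prime)

private theorem TFI_nn {x A : ℕ} (hA : A ≤ x) {a l : ℤ} (h1 : 1 ≤ a) (h2 : a ≤ A) (h3 : (x : ℤ) < l) (h4 : l ≤ 2 * x) :
    (nn (a, l) : ℤ) = 8 * l ^ 2 - a ^ 2 ∧ 7 * (x : ℤ) ^ 2 ≤ nn (a, l) ∧ (nn (a, l) : ℤ) ≤ 32 * (x : ℤ) ^ 2 := by
  have hA' : (A : ℤ) ≤ x := by exact_mod_cast hA
  have hx0 : (0 : ℤ) ≤ x := Int.natCast_nonneg x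
  have e1 : a ^ 2 ≤ (x : ℤ) ^ 2 := by nlinarith
  have e2 : (x : ℤ) ^ 2 < l ^ 2 := by nlinarith
  have e3 : l ^ 2 ≤ 4 * (x : ℤ) ^ 2 := by nlinarith
  have h10 : (0 : ℤ) ≤ a ^ 2 := by positivity
  have hx2 : (0 : ℤ) ≤ (x : ℤ) ^ 2 := by positivity
  have e : (nn (a, l) : ℤ) = 8 * l ^ 2 - a ^ 2 := by
    unfold nn N8
    rw [Int.natCast_natAbs, abs_of_nonpos (by linarith)]
    ring
  exact ⟨e, by rw [e]; linarith, by rw [e]; linarith⟩

open scoped Classical in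
private theorem TFI_split (A : ℕ) (l : ℤ) :
    Ls A l = ∑ a ∈ TFI_S A l, ArithmeticFunction.vonMangoldt (nn (a, l)) + TFI_P A l := by
  unfold Ls TFI_S TFI_P
  rw [← Finset.sum_filter_add_sum_filter_not ((Icc (1 : ℤ) A).filter fun a => a % 2 = 1) (fun a => (nn (a, l)).Prime),
    Finset.filter_filter, Finset.filter_filter]

open scoped Classical in
private theorem TFI_card {x A p : ℕ} (hA : A ≤ x) (h3 : x < p) (h4 : p ≤ 2 * x) :
    Pool.Agent.FIP.ctp A p = #(TFI_S A (p : ℤ)) := by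
  unfold Pool.Agent.FIP.ctp TFI_S
  have hnn : ∀ a : ℕ, 1 ≤ a → a ≤ A → nn ((a : ℤ), (p : ℤ)) = 8 * p ^ 2 - a ^ 2 := by
    intro a h1 h2
    obtain ⟨e, _, _⟩ := TFI_nn (a := (a : ℤ)) (l := (p : ℤ)) hA (by exact_mod_cast h1) (by exact_mod_cast h2)
      (by exact_mod_cast h3) (by exact_mod_cast h4)
    have h5 : a ^ 2 ≤ 8 * p ^ 2 := by
      have : a ≤ p := by omega
      nlinarith
    have h6 : ((8 * p ^ 2 - a ^ 2 : ℕ) : ℤ) = 8 * (p : ℤ) ^ 2 - (a : ℤ) ^ 2 := by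
      rw [Nat.cast_sub h5]; push_cast; ring
    exact_mod_cast e.trans h6.symm
  refine Finset.card_bij (fun a _ => (a : ℤ)) ?_ ?_ ?_
  · intro a ha
    rw [Finset.mem_filter, Finset.mem_Icc] at ha ⊢
    refine ⟨⟨by exact_mod_cast ha.1.1, by exact_mod_cast ha.1.2⟩, ?_, ?_⟩
    · obtain ⟨k, hk⟩ := ha.2.1
      omega
    · rw [hnn a ha.1.1 ha.1.2]; exact ha.2.2
  · intro a _ b _ h
    exact_mod_cast h
  · intro b hb
    rw [Finset.mem_filter, Finset.mem_Icc] at hb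
    obtain ⟨⟨b1, b2⟩, b3, b4⟩ := hb
    have hb0 : ((b.toNat : ℕ) : ℤ) = b := Int.toNat_of_nonneg (by omega)
    refine ⟨b.toNat, ?_, hb0⟩
    rw [Finset.mem_filter, Finset.mem_Icc]
    have c1 : 1 ≤ b.toNat := by omega
    have c2 : b.toNat ≤ A := by omega
    refine ⟨⟨c1, c2⟩, ?_, ?_⟩
    · rw [Nat.odd_iff]; omega
    · rw [← hnn b.toNat c1 c2, hb0]; exact b4

open scoped Classical in
private theorem TFI_sum {x A : ℕ} (hA : A ≤ x) :
    ∑ l ∈ Ioc (x : ℤ) (2 * x) with l.toNat.Prime, Real.log l * TFI_P A l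
      = ∑ ζ ∈ PZ x A with ¬ (nn ζ).Prime, th ζ.2 * ArithmeticFunction.vonMangoldt (nn ζ) := by
  unfold PZ
  rw [Finset.filter_filter, Finset.sum_filter, Finset.sum_filter, Finset.sum_product_right]
  refine Finset.sum_congr rfl fun l hl => ?_
  rw [Finset.mem_Ioc] at hl
  by_cases hp : l.toNat.Prime
  · rw [if_pos hp]
    unfold TFI_P
    rw [Finset.mul_sum, Finset.sum_filter]
    refine Finset.sum_congr rfl fun a ha => ?_
    rw [Finset.mem_Icc] at ha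
    have hth : th l = Real.log l := by unfold th; rw [if_pos hp]
    have hcop : IsCoprime a l := by
      have hl0 : ((l.toNat : ℕ) : ℤ) = l := Int.toNat_of_nonneg (by omega)
      have hpi : Prime l := by rw [← hl0]; exact Nat.prime_iff_prime_int.1 hp
      rw [isCoprime_comm]
      refine (Irreducible.coprime_iff_not_dvd hpi.irreducible).2 ?_
      intro hd
      have := Int.le_of_dvd (by omega) hd
      omega
    show (if a % 2 = 1 ∧ ¬ (nn (a, l)).Prime then Real.log l * ArithmeticFunction.vonMangoldt (nn (a, l)) else 0) =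
      if (a % 2 = 1 ∧ IsCoprime a l) ∧ ¬ (nn (a, l)).Prime then th l * ArithmeticFunction.vonMangoldt (nn (a, l)) else 0
    rw [hth]
    by_cases hc : a % 2 = 1 ∧ ¬ (nn (a, l)).Prime
    · rw [if_pos hc, if_pos ⟨⟨hc.1, hcop⟩, hc.2⟩]
    · rw [if_neg hc, if_neg (fun h => hc ⟨h.1.1, h.2⟩)]
  · rw [if_neg hp]
    symm
    refine Finset.sum_eq_zero fun a _ => ?_
    have hth : th l = 0 := by unfold th; rw [if_neg hp]
    show (if (a % 2 = 1 ∧ IsCoprime a l) ∧ ¬ (nn (a, l)).Prime then th l * ArithmeticFunction.vonMangoldt (nn (a, l)) else 0) = 0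
    rw [hth, zero_mul, ite_self]

private theorem TFI_Pnn (A : ℕ) (l : ℤ) : 0 ≤ TFI_P A l :=
  Finset.sum_nonneg fun _ _ => ArithmeticFunction.vonMangoldt_nonneg

/-- the prime part -/
private theorem TFI_main {x A : ℕ} (hx : 1 ≤ x) (hA : A ≤ x) {l : ℤ} (h3 : (x : ℤ) < l) (h4 : l ≤ 2 * x) :
    2 * Real.log x * #(TFI_S A l) ≤ ∑ a ∈ TFI_S A l, ArithmeticFunction.vonMangoldt (nn (a, l)) ∧
    ∑ a ∈ TFI_S A l, ArithmeticFunction.vonMangoldt (nn (a, l)) ≤ (2 * Real.log x + 4) * #(TFI_S A l) := by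
  have hx0 : (0 : ℝ) < x := by exact_mod_cast hx
  have key : ∀ a ∈ TFI_S A l, 2 * Real.log x ≤ ArithmeticFunction.vonMangoldt (nn (a, l)) ∧
      ArithmeticFunction.vonMangoldt (nn (a, l)) ≤ 2 * Real.log x + 4 := by
    intro a ha
    unfold TFI_S at ha
    rw [Finset.mem_filter, Finset.mem_Icc] at ha
    obtain ⟨_, e2, e3⟩ := TFI_nn hA ha.1.1 ha.1.2 h3 h4
    rw [ArithmeticFunction.vonMangoldt_apply_prime ha.2.2]
    have f2 : 7 * (x : ℝ) ^ 2 ≤ (nn (a, l) : ℝ) := by exact_mod_cast e2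
    have f3 : (nn (a, l) : ℝ) ≤ 32 * (x : ℝ) ^ 2 := by exact_mod_cast e3
    have hx2 : 0 < (x : ℝ) ^ 2 := by positivity
    constructor
    · have h1 : Real.log ((x : ℝ) ^ 2) ≤ Real.log (nn (a, l)) := Real.log_le_log hx2 (by linarith)
      rw [Real.log_pow] at h1
      push_cast at h1
      exact h1
    · have h1 : Real.log (nn (a, l)) ≤ Real.log (32 * (x : ℝ) ^ 2) := Real.log_le_log (by linarith) f3
      rw [Real.log_mul (by norm_num) (by positivity), Real.log_pow, show (32 : ℝ) = 2 ^ 5 by norm_num, Real.log_pow] at h1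
      have := Real.log_two_lt_d9
      push_cast at h1
      linarith
  constructor
  · have := Finset.sum_le_sum fun a ha => (key a ha).1
    rw [Finset.sum_const, nsmul_eq_mul] at this
    linarith
  · have := Finset.sum_le_sum fun a ha => (key a ha).2
    rw [Finset.sum_const, nsmul_eq_mul] at this
    linarith

private theorem TFI_large (x₁ x₂ C : ℕ) (M δ : ℝ) (hδ : 0 < δ) :
    ∃ x₀ : ℕ, ∀ x : ℕ, x₀ ≤ x → x₁ ≤ x ∧ x₂ ≤ x ∧ 1 ≤ x ∧ M ≤ Real.log x ∧ Real.log x ^ C ≤ δ * (x : ℝ) ^ (1 / 6 : ℝ) := by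
  have t1 : Filter.Tendsto (fun x : ℕ => Real.log x) Filter.atTop Filter.atTop :=
    Real.tendsto_log_atTop.comp tendsto_natCast_atTop_atTop
  have e1 := t1.eventually_ge_atTop (max M 1)
  have e2 := tendsto_natCast_atTop_atTop.eventually ((isLittleO_log_rpow_rpow_atTop (C : ℝ) (by norm_num : (0 : ℝ) < 1 / 6)).bound hδ)
  have e3 := Filter.eventually_ge_atTop x₁
  have e4 := Filter.eventually_ge_atTop x₂
  have e5 := Filter.eventually_ge_atTop 1
  obtain ⟨x₀, hx₀⟩ := Filter.eventually_atTop.1 (e1.and (e2.and (e3.and (e4.and e5))))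
  refine ⟨x₀, fun x hx => ?_⟩
  obtain ⟨h1, h2, h3, h4, h5⟩ := hx₀ x hx
  have h6 : (1 : ℝ) ≤ Real.log x := (le_max_right _ _).trans h1
  refine ⟨h3, h4, h5, (le_max_left _ _).trans h1, ?_⟩
  rw [Real.norm_of_nonneg (by positivity), Real.norm_of_nonneg (by positivity), Real.rpow_natCast] at h2
  exact h2

open scoped Classical in
theorem TFI (hTAL : TAL_stmt) (hPPW : PPW_stmt) : TFI_stmt := by
  intro η hη ε hε C
  set κ : ℝ := √8 / lep * Sg with hκ
  set δ : ℝ := ε / 2 with hδd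
  have hδ : 0 < δ := by rw [hδd]; positivity
  obtain ⟨x₁, hT⟩ := hTAL η hη δ hδ (C + 1)
  obtain ⟨x₂, hP⟩ := hPPW
  obtain ⟨x₀, hx₀⟩ := TFI_large x₁ x₂ (C + 1) (max 2 ((2 * |κ| + 2 * δ) / δ)) δ hδ
  refine ⟨x₀, ?_⟩
  intro x hx A hA1 hA
  obtain ⟨hx1, hx2, hx3, hL, hpow⟩ := hx₀ x hx
  have hL2 : 2 ≤ Real.log x := (le_max_left _ _).trans hL
  have hLκ : (2 * |κ| + 2 * δ) / δ ≤ Real.log x := (le_max_right _ _).trans hL
  have hxpos : (0 : ℝ) < x := by exact_mod_cast hx3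
  have hx1' : (1 : ℝ) ≤ x := by exact_mod_cast hx3
  set L : ℝ := Real.log x with hLdef
  have hL0 : 0 < L := by linarith
  have hLκ' : 2 * |κ| + 2 * δ ≤ δ * L := by rwa [div_le_iff₀ hδ, mul_comm L δ] at hLκ
  have hA23 : (x : ℝ) ^ (2 / 3 : ℝ) ≤ A := (Real.rpow_le_rpow_of_exponent_le hx1' (by linarith)).trans hA1
  have hA0 : (0 : ℝ) < A := (Real.rpow_pos_of_pos hxpos _).trans_le hA23
  -- the two bad sets
  set B1 : Finset ℤ := {l ∈ Ioc (x : ℤ) (2 * x) | l.toNat.Prime ∧ δ * A < |Ls A l - √8 / lep * Sg * A|} with hB1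
  set B2 : Finset ℤ := {l ∈ Ioc (x : ℤ) (2 * x) | l.toNat.Prime ∧ δ * A < TFI_P A l} with hB2
  have c1 : (#B1 : ℝ) ≤ x / L ^ (C + 1) := hT x hx1 A hA1 hA
  have c2 : (#B2 : ℝ) ≤ x / L ^ (C + 1) := by
    have h1 := hP x hx2 A hA
    rw [← TFI_sum hA] at h1
    have h2 : ∑ l ∈ B2, L * (δ * A) ≤ ∑ l ∈ Ioc (x : ℤ) (2 * x) with l.toNat.Prime, Real.log l * TFI_P A l := by
      have h3 : B2 ⊆ (Ioc (x : ℤ) (2 * x)).filter (fun l => l.toNat.Prime) := by
        intro l hl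
        rw [hB2, Finset.mem_filter] at hl
        rw [Finset.mem_filter]
        exact ⟨hl.1, hl.2.1⟩
      have hlog : ∀ l ∈ Ioc (x : ℤ) (2 * x), L ≤ Real.log l := by
        intro l hl
        rw [Finset.mem_Ioc] at hl
        refine Real.log_le_log hxpos ?_
        exact_mod_cast hl.1.le
      refine le_trans ?_ (Finset.sum_le_sum_of_subset_of_nonneg h3 ?_)
      · refine Finset.sum_le_sum fun l hl => ?_
        rw [hB2, Finset.mem_filter] at hl
        exact mul_le_mul (hlog l hl.1) hl.2.2.le (by positivity) (hL0.le.trans (hlog l hl.1))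
      · intro l hl _
        exact mul_nonneg (hL0.le.trans (hlog l (Finset.mem_of_mem_filter l hl))) (TFI_Pnn A l)
    rw [Finset.sum_const, nsmul_eq_mul] at h2
    have h4 : (#B2 : ℝ) * (L * (δ * A)) ≤ (x : ℝ) ^ (3 / 2 : ℝ) := h2.trans h1
    have h5 : (x : ℝ) ^ (3 / 2 : ℝ) = (x : ℝ) ^ (2 / 3 : ℝ) * (x : ℝ) ^ (5 / 6 : ℝ) := by
      rw [← Real.rpow_add hxpos]; norm_num
    have h6 : (#B2 : ℝ) * (L * δ) ≤ (x : ℝ) ^ (5 / 6 : ℝ) := by
      have h7 : (#B2 : ℝ) * (L * δ) * A ≤ (x : ℝ) ^ (5 / 6 : ℝ) * A := by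
        calc (#B2 : ℝ) * (L * δ) * A = #B2 * (L * (δ * A)) := by ring
          _ ≤ (x : ℝ) ^ (3 / 2 : ℝ) := h4
          _ = (x : ℝ) ^ (2 / 3 : ℝ) * (x : ℝ) ^ (5 / 6 : ℝ) := h5
          _ ≤ A * (x : ℝ) ^ (5 / 6 : ℝ) := mul_le_mul_of_nonneg_right hA23 (Real.rpow_nonneg hxpos.le _)
          _ = _ := mul_comm _ _
      exact le_of_mul_le_mul_right h7 hA0
    rw [le_div_iff₀ (by positivity)]
    have h8 : (x : ℝ) = (x : ℝ) ^ (5 / 6 : ℝ) * (x : ℝ) ^ (1 / 6 : ℝ) := by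
      rw [← Real.rpow_add hxpos]; norm_num
    have h9 : (#B2 : ℝ) * L ^ (C + 1) ≤ #B2 * (δ * (x : ℝ) ^ (1 / 6 : ℝ)) :=
      mul_le_mul_of_nonneg_left hpow (Nat.cast_nonneg _)
    have h10 : (#B2 : ℝ) * δ ≤ (x : ℝ) ^ (5 / 6 : ℝ) := by
      have : (#B2 : ℝ) * δ * 1 ≤ #B2 * δ * L := mul_le_mul_of_nonneg_left (by linarith) (mul_nonneg (Nat.cast_nonneg _) hδ.le)
      nlinarith
    calc (#B2 : ℝ) * L ^ (C + 1) ≤ #B2 * (δ * (x : ℝ) ^ (1 / 6 : ℝ)) := h9
      _ = (#B2 * δ) * (x : ℝ) ^ (1 / 6 : ℝ) := by ring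
      _ ≤ (x : ℝ) ^ (5 / 6 : ℝ) * (x : ℝ) ^ (1 / 6 : ℝ) := mul_le_mul_of_nonneg_right h10 (Real.rpow_nonneg hxpos.le _)
      _ = x := h8.symm
  -- the bad primes are in the union
  have hsub : #{p ∈ Ioc x (2 * x) | p.Prime ∧ ε * (A / L) < |(Pool.Agent.FIP.ctp A p : ℝ) - √8 / (2 * lep) * Sg * (A / L)|} ≤ #(B1 ∪ B2) := by
    refine Finset.card_le_card_of_injOn (fun p : ℕ => (p : ℤ)) ?_ ?_
    · intro p hp
      rw [Finset.mem_coe, Finset.mem_filter, Finset.mem_Ioc] at hp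
      obtain ⟨⟨p1, p2⟩, p3, p4⟩ := hp
      rw [Finset.mem_coe, Finset.mem_union]
      by_contra hc
      push Not at hc
      obtain ⟨n1, n2⟩ := hc
      have q1 : (x : ℤ) < p := by exact_mod_cast p1
      have q2 : (p : ℤ) ≤ 2 * x := by exact_mod_cast p2
      have q3 : ((p : ℤ)).toNat.Prime := by rw [Int.toNat_natCast]; exact p3
      have m1 : |Ls A p - √8 / lep * Sg * A| ≤ δ * A := by
        by_contra h
        apply n1
        rw [hB1, Finset.mem_filter, Finset.mem_Ioc]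
        exact ⟨⟨q1, q2⟩, q3, lt_of_not_ge h⟩
      have m2 : TFI_P A p ≤ δ * A := by
        by_contra h
        apply n2
        rw [hB2, Finset.mem_filter, Finset.mem_Ioc]
        exact ⟨⟨q1, q2⟩, q3, lt_of_not_ge h⟩
      have m3 := TFI_Pnn A (p : ℤ)
      rw [TFI_split, ← hκ] at m1
      obtain ⟨s1, s2⟩ := TFI_main (A := A) hx3 hA q1 q2
      rw [← hLdef] at s1 s2
      rw [TFI_card hA p1 p2] at p4
      set c : ℝ := (#(TFI_S A (p : ℤ)) : ℝ) with hc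
      set S : ℝ := ∑ a ∈ TFI_S A (p : ℤ), ArithmeticFunction.vonMangoldt (nn (a, (p : ℤ))) with hS
      set P : ℝ := TFI_P A (p : ℤ) with hPd
      have hc0 : 0 ≤ c := by rw [hc]; positivity
      obtain ⟨m4, m5⟩ := abs_le.1 m1
      have hκ1 := le_abs_self κ
      have t1 : 2 * L * c ≤ (|κ| + δ) * A := by nlinarith
      have t2 : 4 * c ≤ δ * A := by
        have t3 : L * (4 * c) ≤ L * (δ * A) := by nlinarith
        exact le_of_mul_le_mul_left t3 hL0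
      have t4 : |2 * L * c - κ * A| ≤ 3 * δ * A := by
        rw [abs_le]; constructor <;> nlinarith
      have hlep : √8 / (2 * lep) * Sg * (A / L) = κ * A / (2 * L) := by
        rw [hκ]; ring
      have t5 : |c - √8 / (2 * lep) * Sg * (A / L)| = |2 * L * c - κ * A| / (2 * L) := by
        rw [hlep]
        have e1 : c - κ * A / (2 * L) = (2 * L * c - κ * A) / (2 * L) := by field_simp
        rw [e1, abs_div, abs_of_pos (show 0 < 2 * L by positivity)]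
      rw [t5] at p4
      have t6 : |2 * L * c - κ * A| / (2 * L) ≤ 3 * δ * A / (2 * L) := div_le_div_of_nonneg_right t4 (by positivity)
      have t7 : 3 * δ * A / (2 * L) = (3 / 4) * (ε * (A / L)) := by rw [hδd]; ring
      have t8 : 0 < ε * (A / L) := by positivity
      linarith
    · intro a _ b _ h
      have h' : (a : ℤ) = (b : ℤ) := h
      exact_mod_cast h'
  have hcard : (#{p ∈ Ioc x (2 * x) | p.Prime ∧ ε * (A / L) < |(Pool.Agent.FIP.ctp A p : ℝ) - √8 / (2 * lep) * Sg * (A / L)|} : ℝ) ≤ #B1 + #B2 := by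
    have h1 := hsub.trans (Finset.card_union_le B1 B2)
    exact_mod_cast h1
  refine hcard.trans ?_
  have h2 : (x : ℝ) / L ^ (C + 1) * L = x / L ^ C := by
    rw [pow_succ]
    field_simp
  have h3 : 0 ≤ (x : ℝ) / L ^ (C + 1) := by positivity
  nlinarith

end Pool.Agent.EU
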