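import Pool.Agent.helper28.EU.SpecIII

/-! # WFU: the bilinear form, from part I (PTI) and part II (SMB) -/

set_option autoImplicit false

open Finset

noncomputable section

namespace Pool.Agent.EU

open Pool.Agent.FI Pool.Agent.FJ

/-- `YH` is monotone in the exponent and in the range of `t` -/
theorem WFU_mono {x N A E E' : ℕ} {T T' : ℝ} {β : ℤ × ℤ → ℝ} (hL : 1 ≤ Real.log x) (hE : E ≤ E') (hT : T ≤ T')
    (h : YH x N A E' T' β) : YH x N A E T β := by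
  intro q hq hqE c sg h₀ hh1 hh2 t ht
  have hx0 : (0 : ℝ) < x := by
    by_contra hc
    have h1 : (x : ℝ) = 0 := le_antisymm (not_lt.1 hc) (Nat.cast_nonneg x)
    rw [h1, Real.log_zero] at hL
    linarith
  have hm : Real.log x ^ E ≤ Real.log x ^ E' := pow_le_pow_right₀ hL hE
  have hL0 : 0 < Real.log x := by linarith
  have h1 : (A : ℝ) / (x * Real.log x ^ E') ≤ h₀ := by
    refine le_trans ?_ hh1
    exact div_le_div_of_nonneg_left (by positivity) (by positivity) (mul_le_mul_of_nonneg_left hm hx0.le)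
  refine (h q hq (hqE.trans hm) c sg h₀ h1 hh2 t (ht.trans hT)).trans ?_
  exact div_le_div_of_nonneg_left (by positivity) (by positivity) hm

theorem WFU (hLAT : LAT_stmt) (hPTI : PTI_stmt) (hSMB : SMB_stmt) : WFU_stmt := by
  intro η hη B
  obtain ⟨om, hom⟩ := hLAT
  obtain ⟨E₀, E₂, x₂, hE₀, hS⟩ := hSMB η hη (B + 1)
  obtain ⟨E, x₁, hP⟩ := hPTI η hη (B + 1) E₀ hE₀
  refine ⟨max E E₂, max (max x₁ x₂) ⌈Real.exp 2⌉₊, ?_⟩
  intro x hx Z lam hZ hlam A N R hA1 hA2 hN1 hN2 hR1 hR2 β hβ hY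
  have hx1 : x₁ ≤ x := (le_max_left _ _).trans ((le_max_left _ _).trans hx)
  have hx2 : x₂ ≤ x := (le_max_right _ _).trans ((le_max_left _ _).trans hx)
  have hx3 : Real.exp 2 ≤ x := (Nat.le_ceil _).trans (by exact_mod_cast (le_max_right _ _).trans hx)
  have hx0 : (0 : ℝ) < x := (Real.exp_pos _).trans_le hx3
  have hL : 2 ≤ Real.log x := (Real.le_log_iff_exp_le hx0).2 hx3
  set L : ℝ := Real.log x with hLdef
  have hL1 : 1 ≤ L := by linarith
  have hL0 : 0 < L := by linarith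
  have mono : ∀ a b : ℕ, a ≤ b → L ^ a ≤ L ^ b := fun a b h => pow_le_pow_right₀ hL1 h
  have hE1 : L ^ E ≤ Z := (mono _ _ (le_max_left _ _)).trans hZ
  have hE2 : L ^ E₂ ≤ Z := (mono _ _ (le_max_right _ _)).trans hZ
  obtain ⟨K₁, R₀, k1, k2, r1, r2, hs⟩ := hS x Z N A lam β om hx2 hE2 hlam hom hA1 hA2 hN1 hN2 hβ
    (WFU_mono hL1 (le_max_right E E₂) le_rfl hY)
  have hp := hP x hx1 Z lam hE1 hlam om hom A N R K₁ R₀ hA1 hA2 hN1 hN2 hR1 hR2 k1 k2 r1 r2 β hβ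
  have h1 : WW N R A β lam ≤ ‖(WW N R A β lam : ℂ)‖ := by
    rw [Complex.norm_real]
    exact Real.le_norm_self _
  have h2 : ‖(WW N R A β lam : ℂ)‖ ≤ ‖(WW N R A β lam : ℂ) - SML x N A K₁ R₀ om β lam‖ + ‖SML x N A K₁ R₀ om β lam‖ := by
    have := norm_add_le ((WW N R A β lam : ℂ) - SML x N A K₁ R₀ om β lam) (SML x N A K₁ R₀ om β lam)
    rwa [sub_add_cancel] at this
  have h3 : (N : ℝ) * A ^ 2 / L ^ (B + 1) * L = N * A ^ 2 / L ^ B := by
    rw [pow_succ]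
    field_simp
    ring
  have h4 : 0 ≤ (N : ℝ) * A ^ 2 / L ^ (B + 1) := by positivity
  nlinarith

end Pool.Agent.EU
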